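import Pool.Agent.TH34.SG.Mon

set_option autoImplicit false

/-!
# The rational monoid algebra embeds, the one in characteristic seven does not
-/

namespace Pool.Agent.TH34.SG

open Pool.Agent.TH34

theorem cf_rep_same {s : SM} : cf XX (s : FR XX) (mw (w0 s)) = em (g0 s) := by
  rw [eq_rep s, M, cf_sg_same]

theorem cf_rep_ne {s : SM} {w : Wo} (hw : ∀ x ∈ w, x.2 ∈ Cs) (h : w0 s ≠ w) :
    cf XX (s : FR XX) (mw w) = 0 := by
  rw [eq_rep s, M]
  apply cf_sg_ne
  intro he
  exact h (mw_inj (valid_rep s).slots hw he)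

/-- the embedding of the rational numbers in the ambient field -/
noncomputable def rho : ℚ →+* EE := @algebraMap ℚ EE _ _ HahnSeries.instAlgebra

theorem rat_indep (T : Finset SM) (c : SM → ℚ)
    (h : ∑ s ∈ T, (rho (c s)) • (s : FR XX) = 0) : ∀ s ∈ T, c s = 0 := by
  classical
  intro s1 hs1
  have hw := (valid_rep s1).slots
  have h1 : LinearIndepOn ℚ (em ∘ g0) ((T.filter (fun s => w0 s = w0 s1) : Finset SM) : Set SM) := by
    apply LinearIndepOn.comp_of_image
    · apply em_indep.mono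
      rintro _ ⟨s, -, rfl⟩
      exact (valid_rep s).mem_Cs
    · intro s hs t ht hst
      rw [Finset.mem_coe, Finset.mem_filter] at hs ht
      exact rep_ext hst (hs.2.trans ht.2.symm)
  rw [linearIndepOn_finset_iff] at h1
  refine h1 c ?_ s1 (by simp [hs1])
  have h2 := congrArg (fun f => cf XX f (mw (w0 s1))) h
  have hadd : ∀ (T' : Finset SM), cf XX (∑ s ∈ T', (rho (c s)) • (s : FR XX))
      (mw (w0 s1)) = ∑ s ∈ T', (rho (c s)) * cf XX (s : FR XX) (mw (w0 s1)) := by
    intro T'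
    induction T' using Finset.induction_on with
    | empty => simp
    | insert a s ha ih => rw [Finset.sum_insert ha, Finset.sum_insert ha, cf_add, cf_smul, ih]
  simp only [cf_zero] at h2
  rw [hadd] at h2
  refine Eq.trans ?_ h2
  rw [Finset.sum_filter]
  apply Finset.sum_congr rfl
  intro s _
  split_ifs with hs
  · rw [← hs, cf_rep_same]
    exact @Algebra.smul_def ℚ EE _ _ HahnSeries.instAlgebra (c s) (em (g0 s))
  · rw [cf_rep_ne hw hs, mul_zero]

theorem embeds : ∃ (D : Type) (_ : DivisionRing D) (f : MonoidAlgebra ℚ SM →ₙ+* D),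
    Function.Injective f := by
  classical
  obtain ⟨D, iD, j, hj⟩ := exists_embed XX
  refine ⟨D, iD, ?_⟩
  let ψ : ℚ →+* D := j.comp ((emb XX).comp rho)
  have hc : ∀ (x : ℚ) (s : SM), Commute (ψ x) ((j : FR XX →* D).comp SM.subtype s) := by
    intro x s
    rw [eq_ratCast ψ x]
    exact Rat.cast_commute _ _
  let F : MonoidAlgebra ℚ SM →+* D :=
    MonoidAlgebra.liftNCRingHom ψ ((j : FR XX →* D).comp SM.subtype) hc
  refine ⟨(F : MonoidAlgebra ℚ SM →ₙ+* D), ?_⟩
  change Function.Injective F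
  rw [injective_iff_map_eq_zero]
  intro x hx
  have h1 : F x = x.coeff.sum (fun s q => ψ q * j (s : FR XX)) := by
    conv_lhs => rw [← MonoidAlgebra.sum_coeff_single x]
    rw [map_finsuppSum]
    apply Finsupp.sum_congr
    intro s _
    exact MonoidAlgebra.liftNC_single _ _ _ _
  have h2 : F x = j (∑ s ∈ x.coeff.support, (rho (x.coeff s)) • (s : FR XX)) := by
    rw [h1, map_sum, Finsupp.sum]
    apply Finset.sum_congr rfl
    intro s _
    rw [← emb_mul, map_mul]
    rfl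
  rw [hx] at h2
  have h3 := (injective_iff_map_eq_zero j).mp hj _ h2.symm
  have h4 := rat_indep _ _ h3
  apply MonoidAlgebra.coeff_injective
  ext s
  by_cases hs : s ∈ x.coeff.support
  · rw [h4 s hs]
    rfl
  · rw [Finsupp.notMem_support_iff] at hs
    rw [hs]
    rfl

/-- letters ending in a slot -/
noncomputable def xl (p : Gam) (hp : p ∈ Ls) : SM :=
  ⟨M 0 [(true, p)], 0, [(true, p)],
    { nil := by simp
      first := by
        intro l q t h
        simp only [List.cons.injEq, Prod.mk.injEq] at h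
        rw [← h.1.1]
        decide
      last := by
        intro t l q h
        rcases t with _ | ⟨y, t⟩
        · simp only [List.nil_append, List.cons.injEq, Prod.mk.injEq, and_true] at h
          rw [← h.1, ← h.2]
          exact hp
        · simp at h
      slots := by
        intro x hx
        rw [List.mem_singleton] at hx
        subst hx
        exact Ls_sub _ hp }, rfl⟩

/-- letters beginning with a slot -/
noncomputable def yr (q : Gam) (hq : q ∈ Rs) : SM :=
  ⟨M q [(false, 0)], q, [(false, 0)],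
    { nil := by simp
      first := by
        intro l q t h
        simp only [List.cons.injEq, Prod.mk.injEq] at h
        rw [← h.1.1]
        exact hq
      last := by
        intro t l q h
        rcases t with _ | ⟨y, t⟩
        · simp only [List.nil_append, List.cons.injEq, Prod.mk.injEq, and_true] at h
          rw [← h.1, ← h.2]
          decide
        · simp at h
      slots := by
        intro x hx
        rw [List.mem_singleton] at hx
        subst hx
        exact zero_mem_Cs }, rfl⟩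

theorem xl_yr (p q : Gam) (hp : p ∈ Ls) (hq : q ∈ Rs) :
    ((xl p hp * yr q hq : SM) : FR XX) = M 0 [(true, p + q), (false, 0)] :=
  M_concat_mul 0 q [] [(false, 0)] true p (Ls_sub _ hp) (add_mem_Cs _ hp _ hq)

theorem xl_yr_eq {p q p' q' : Gam} (hp : p ∈ Ls) (hq : q ∈ Rs) (hp' : p' ∈ Ls) (hq' : q' ∈ Rs)
    (h : p + q = p' + q') : xl p hp * yr q hq = xl p' hp' * yr q' hq' := by
  apply Subtype.ext
  rw [xl_yr, xl_yr, h]

theorem xl_yr_ne {p q p' q' : Gam} (hp : p ∈ Ls) (hq : q ∈ Rs) (hp' : p' ∈ Ls) (hq' : q' ∈ Rs)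
    (h : p + q ≠ p' + q') : xl p hp * yr q hq ≠ xl p' hp' * yr q' hq' := by
  intro he
  have h1 := congrArg (Subtype.val) he
  rw [xl_yr, xl_yr] at h1
  have h2 := (M_inj zero_mem_Cs zero_mem_Cs ?_ ?_ h1).2
  · simp only [List.cons.injEq, Prod.mk.injEq, true_and, and_true] at h2
    exact h h2
  · intro x hx
    simp only [List.mem_cons, List.not_mem_nil, or_false] at hx
    rcases hx with rfl | rfl
    · exact add_mem_Cs _ hp _ hq
    · exact zero_mem_Cs
  · intro x hx
    simp only [List.mem_cons, List.not_mem_nil, or_false] at hx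
    rcases hx with rfl | rfl
    · exact add_mem_Cs _ hp' _ hq'
    · exact zero_mem_Cs

theorem not_embeds : ¬ ∃ (D : Type) (_ : DivisionRing D) (f : MonoidAlgebra (ZMod 7) SM →ₙ+* D),
    Function.Injective f := by
  rintro ⟨D, iD, f, hf⟩
  let F : SM → D := fun s => f (MonoidAlgebra.single s 1)
  have hmul : ∀ s t, F (s * t) = F s * F t := by
    intro s t
    change f _ = f _ * f _
    rw [← map_mul, MonoidAlgebra.single_mul_single, mul_one]
  have hne : ∀ s, F s ≠ 0 := by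
    intro s h
    have h1 : f (MonoidAlgebra.single s 1) = f 0 := by
      rw [map_zero]
      exact h
    have h2 := hf h1
    rw [MonoidAlgebra.single_eq_zero] at h2
    exact absurd h2 (by decide)
  have h7 : (7 : D) = 0 := by
    have h1 : (7 : ℕ) • F 1 = 0 := by
      change (7 : ℕ) • f _ = 0
      rw [← map_nsmul]
      have h2 : (7 : ℕ) • (MonoidAlgebra.single (1 : SM) (1 : ZMod 7)) = 0 := by
        rw [MonoidAlgebra.smul_single]
        have : (7 : ℕ) • (1 : ZMod 7) = 0 := by decide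
        rw [this, MonoidAlgebra.single_zero]
      rw [h2, map_zero]
    rw [nsmul_eq_mul] at h1
    rcases mul_eq_zero.mp h1 with h2 | h2
    · exact_mod_cast h2
    · exact absurd h2 (hne 1)
  have rel : ∀ {p q p' q' : Gam} (hp : p ∈ Ls) (hq : q ∈ Rs) (hp' : p' ∈ Ls) (hq' : q' ∈ Rs)
      (_ : p + q = p' + q'), F (xl p hp) * F (yr q hq) = F (xl p' hp') * F (yr q' hq') := by
    intro p q p' q' hp hq hp' hq' h
    rw [← hmul, ← hmul, xl_yr_eq hp hq hp' hq' h]
  have m00 : ((0, 0) : Gam) ∈ Ls := by decide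
  have m10 : ((1, 0) : Gam) ∈ Ls := by decide
  have m20 : ((2, 0) : Gam) ∈ Ls := by decide
  have m01 : ((0, 1) : Gam) ∈ Ls := by decide
  have m41 : ((4, 1) : Gam) ∈ Ls := by decide
  have n00 : ((0, 0) : Gam) ∈ Rs := by decide
  have n10 : ((1, 0) : Gam) ∈ Rs := by decide
  have n20 : ((2, 0) : Gam) ∈ Rs := by decide
  have n01 : ((0, -1) : Gam) ∈ Rs := by decide
  have n41 : ((4, -1) : Gam) ∈ Rs := by decide
  obtain ⟨X0, hX0⟩ : ∃ X, X = F (xl (0, 0) m00) := ⟨_, rfl⟩
  obtain ⟨X1, hX1⟩ : ∃ X, X = F (xl (1, 0) m10) := ⟨_, rfl⟩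
  obtain ⟨X2, hX2⟩ : ∃ X, X = F (xl (2, 0) m20) := ⟨_, rfl⟩
  obtain ⟨S0, hS0⟩ : ∃ X, X = F (xl (0, 1) m01) := ⟨_, rfl⟩
  obtain ⟨S4, hS4⟩ : ∃ X, X = F (xl (4, 1) m41) := ⟨_, rfl⟩
  obtain ⟨Y0, hY0⟩ : ∃ X, X = F (yr (0, 0) n00) := ⟨_, rfl⟩
  obtain ⟨Y1, hY1⟩ : ∃ X, X = F (yr (1, 0) n10) := ⟨_, rfl⟩
  obtain ⟨Y2, hY2⟩ : ∃ X, X = F (yr (2, 0) n20) := ⟨_, rfl⟩
  obtain ⟨Z0, hZ0⟩ : ∃ X, X = F (yr (0, -1) n01) := ⟨_, rfl⟩
  obtain ⟨Z4, hZ4⟩ : ∃ X, X = F (yr (4, -1) n41) := ⟨_, rfl⟩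
  have r1 : X0 * Y1 = X1 * Y0 := by
    rw [hX0, hX1, hY0, hY1]
    exact rel _ _ _ _ (by decide)
  have r2 : X1 * Y1 = X2 * Y0 := by
    rw [hX1, hX2, hY0, hY1]
    exact rel _ _ _ _ (by decide)
  have r3 : X0 * Y2 = X1 * Y1 := by
    rw [hX0, hX1, hY1, hY2]
    exact rel _ _ _ _ (by decide)
  have r5 : X2 * Y2 = S0 * Z4 := by
    rw [hX2, hS0, hY2, hZ4]
    exact rel _ _ _ _ (by decide)
  have r6 : S0 * Z4 = S4 * Z0 := by
    rw [hS0, hS4, hZ0, hZ4]
    exact rel _ _ _ _ (by decide)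
  have r7 : X0 * Y0 = S0 * Z0 := by
    rw [hX0, hS0, hY0, hZ0]
    exact rel _ _ _ _ (by decide)
  have r8 : X1 * Y0 = S4 * Z4 := by
    rw [hX1, hS4, hY0, hZ4]
    exact rel _ _ _ _ (by decide)
  have hX0n : X0 ≠ 0 := by rw [hX0]; exact hne _
  have hS0n : S0 ≠ 0 := by rw [hS0]; exact hne _
  have hY0n : Y0 ≠ 0 := by rw [hY0]; exact hne _
  have hZ0n : Z0 ≠ 0 := by rw [hZ0]; exact hne _
  have hd : X0 * Y0 ≠ X1 * Y0 := by
    rw [hX0, hX1, hY0, ← hmul, ← hmul]
    intro h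
    have h1 := hf h
    have h2 := MonoidAlgebra.single_left_injective (show (1 : ZMod 7) ≠ 0 by decide) h1
    exact xl_yr_ne m00 n00 m10 n00 (by decide) h2
  obtain ⟨g, hg⟩ : ∃ g, g = X1 * X0⁻¹ := ⟨_, rfl⟩
  obtain ⟨k, hk⟩ : ∃ k, k = S4 * S0⁻¹ := ⟨_, rfl⟩
  have e1 : X1 = g * X0 := by rw [hg, mul_assoc, inv_mul_cancel₀ hX0n, mul_one]
  have e2 : S4 = k * S0 := by rw [hk, mul_assoc, inv_mul_cancel₀ hS0n, mul_one]
  have e3 : X2 = g * X1 := by
    apply mul_right_cancel₀ hY0n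
    rw [← r2, mul_assoc, ← r1, ← mul_assoc, ← e1]
  have e4 : X2 * Y2 = g ^ 4 * (X0 * Y0) := by
    have f1 : X1 * Y1 = g * (X1 * Y0) := by
      rw [r2, e3, mul_assoc]
    have f2 : X1 * Y2 = g * (X1 * Y1) := by
      conv_lhs => rw [e1]
      rw [mul_assoc, r3]
    have f3 : X2 * Y2 = g * (X1 * Y2) := by
      rw [e3, mul_assoc]
    rw [f3, f2, f1, e1]
    simp only [pow_succ, pow_zero, one_mul, mul_assoc]
  have hT0 : X0 * Y0 ≠ 0 := mul_ne_zero hX0n hY0n
  have e5 : k = g ^ 4 := by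
    apply mul_right_cancel₀ hT0
    rw [← e4, r5, r6, r7, e2, mul_assoc]
  have e6 : g ^ 8 * (X0 * Y0) = g * (X0 * Y0) := by
    have f1 : X1 * Y0 = g * (X0 * Y0) := by
      rw [e1, mul_assoc]
    rw [← f1, r8, e2, mul_assoc, ← r5, e4, e5]
    simp only [pow_succ, pow_zero, one_mul, mul_assoc]
  have e7 : g ^ 8 = g := mul_right_cancel₀ hT0 e6
  have hg0 : g ≠ 0 := by
    intro h
    have h1 : X1 ≠ 0 := by rw [hX1]; exact hne _
    rw [e1, h, zero_mul] at h1
    exact h1 rfl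
  have e8 : g ^ 7 = 1 := by
    apply mul_right_cancel₀ hg0
    rw [← pow_succ, one_mul]
    exact e7
  have : CharP D 7 := (CharP.charP_iff_prime_eq_zero (by norm_num : Nat.Prime 7)).mpr
    (by exact_mod_cast h7)
  have : Fact (Nat.Prime 7) := ⟨by norm_num⟩
  have e9 : (g - 1) ^ 7 = 0 := by
    rw [sub_pow_char_of_commute (p := 7) (Commute.one_right g), e8, one_pow, sub_self]
  have e10 : g = 1 := by
    have := pow_eq_zero_iff (by norm_num : 7 ≠ 0) |>.mp e9
    exact sub_eq_zero.mp this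
  apply hd
  rw [e1, e10, one_mul]

end Pool.Agent.TH34.SG
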