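import Mathlib

set_option autoImplicit false

/-!
# The monomials `h ^ a * s ^ m` in the field of Laurent series over `ℂ`
-/

namespace Pool.Agent.TH34.SG

open Polynomial

/-- a primitive seventh root of unity -/
noncomputable def h7 : ℂ := Complex.exp (2 * Real.pi * Complex.I / (7 : ℕ))

theorem h7_prim : IsPrimitiveRoot h7 7 := Complex.isPrimitiveRoot_exp 7 (by norm_num)

theorem h7_pow : h7 ^ 7 = 1 := h7_prim.pow_eq_one

/-- powers of `h` with exponents modulo seven -/
noncomputable def hz (a : ZMod 7) : ℂ := h7 ^ a.val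

theorem hz_add (a b : ZMod 7) : hz (a + b) = hz a * hz b := by
  unfold hz
  rw [← pow_add, ZMod.val_add]
  conv_rhs => rw [← Nat.mod_add_div (a.val + b.val) 7, pow_add, pow_mul, h7_pow, one_pow, mul_one]

theorem hz_zero : hz 0 = 1 := by simp [hz]

theorem minpoly_deg : (minpoly ℚ h7).natDegree = 6 := by
  rw [← Polynomial.cyclotomic_eq_minpoly_rat h7_prim (by norm_num), Polynomial.natDegree_cyclotomic]
  decide

theorem pow_indep : LinearIndependent ℚ (fun i : Fin 6 => h7 ^ (i : ℕ)) := by
  have := linearIndependent_pow (K := ℚ) h7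
  rwa [minpoly_deg] at this

theorem geom_zero : ∑ i ∈ Finset.range 7, h7 ^ i = 0 := h7_prim.geom_sum_eq_zero (by norm_num)

/-- a rational relation between the seven powers is a multiple of the trivial one -/
theorem const_of_sum_eq_zero (c : ZMod 7 → ℚ) (hc : ∑ a, c a • hz a = 0) (a b : ZMod 7) :
    c a = c b := by
  have key : ∀ a, c a = c 6 := by
    have h1 : ∑ i : Fin 6, (c (i : ℕ) - c 6) • h7 ^ (i : ℕ) = 0 := by
      have h2 := geom_zero
      have h3 : ∑ a : ZMod 7, c a • hz a = ∑ i : Fin 7, c ((i : ℕ) : ZMod 7) • h7 ^ (i : ℕ) := by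
        apply Finset.sum_congr rfl
        intro i _
        have hi : ((ZMod.val i : ℕ) : ZMod 7) = i := ZMod.natCast_zmod_val i
        change c i • h7 ^ (ZMod.val i) = c ((ZMod.val i : ℕ) : ZMod 7) • h7 ^ (ZMod.val i)
        rw [hi]
      rw [h3] at hc
      rw [Fin.sum_univ_castSucc] at hc
      rw [Finset.sum_range_succ] at h2
      simp only [sub_smul, Finset.sum_sub_distrib]
      rw [← Finset.smul_sum, Fin.sum_univ_eq_sum_range (fun i => h7 ^ i) 6]
      have h4 : ((Fin.last 6 : Fin 7) : ℕ) = 6 := rfl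
      simp only [Fin.val_castSucc, h4] at hc
      have h5 : ((6 : ℕ) : ZMod 7) = 6 := rfl
      rw [h5] at hc
      rw [eq_neg_of_add_eq_zero_left hc, eq_neg_of_add_eq_zero_left h2]
      simp
    have h2 := Fintype.linearIndependent_iff.mp pow_indep _ h1
    intro a
    by_cases ha : a = 6
    · rw [ha]
    · have hlt : a.val < 6 := by
        revert a
        decide
      have h3 := h2 ⟨a.val, hlt⟩
      have h4 : ((a.val : ℕ) : ZMod 7) = a := ZMod.natCast_zmod_val a
      simp only [h4] at h3
      linarith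
  rw [key a, key b]

/-- exponents of the monomials `h ^ a * s ^ m` -/
abbrev Gam : Type := ZMod 7 × ℤ

/-- the ambient field -/
abbrev EE : Type := HahnSeries ℤ ℂ

/-- the monomial `h ^ a * s ^ m` -/
noncomputable def em (p : Gam) : EE := HahnSeries.single p.2 (hz p.1)

theorem em_add (p q : Gam) : em (p + q) = em p * em q := by
  unfold em
  rw [HahnSeries.single_mul_single, Prod.fst_add, Prod.snd_add, hz_add]

theorem em_zero : em 0 = 1 := by
  unfold em
  simp [hz_zero]

/-- the allowed exponents -/
def Cs : Finset Gam :=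
  ((Finset.univ.erase 6) ×ˢ {0}) ∪ ((Finset.univ.erase 3) ×ˢ {1, -1})

theorem em_indep : LinearIndepOn ℚ em (Cs : Set Gam) := by
  rw [linearIndepOn_finset_iff]
  intro g hg
  have key : ∀ m : ℤ, ∑ a : ZMod 7, (if (a, m) ∈ Cs then g (a, m) else 0) • hz a = 0 := by
    intro m
    have h1 := congrArg (fun x : EE => x.coeff m) hg
    simp only [HahnSeries.coeff_zero] at h1
    rw [HahnSeries.coeff_sum] at h1
    rw [← h1]
    simp only [HahnSeries.coeff_smul, em, HahnSeries.coeff_single, ite_smul, zero_smul]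
    rw [← Finset.sum_filter]
    simp only [smul_ite, smul_zero]
    conv_rhs => rw [← Finset.sum_filter]
    refine Finset.sum_bij' (fun a _ => (a, m)) (fun p _ => p.1) ?_ ?_ ?_ ?_ ?_
    · intro a ha
      simp only [Finset.mem_filter] at ha ⊢
      exact ⟨ha.2, by trivial⟩
    · intro p hp
      simp only [Finset.mem_filter, Finset.mem_univ, true_and] at hp ⊢
      rw [hp.2]
      exact hp.1
    · intro a _
      rfl
    · intro p hp
      simp only [Finset.mem_filter] at hp
      rw [hp.2]
    · intro a _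
      rfl
  have hex : ∀ p ∈ Cs, ∃ a : ZMod 7, (a, p.2) ∉ Cs := by decide
  intro p hp
  obtain ⟨a, ha⟩ := hex p hp
  have h3 := const_of_sum_eq_zero _ (key p.2) p.1 a
  rw [if_neg ha, if_pos (show (p.1, p.2) ∈ Cs from hp)] at h3
  exact h3

theorem em_ne_zero (p : Gam) : em p ≠ 0 := by
  intro h
  have h1 : em p * em (-p) = 1 := by
    rw [← em_add, add_neg_cancel, em_zero]
  rw [h, zero_mul] at h1
  exact zero_ne_one h1

theorem em_inj : Set.InjOn em (Cs : Set Gam) := em_indep.injOn

end Pool.Agent.TH34.SG
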