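import Pool.Agent.TH34.SG.Words
import Pool.Agent.TH34.SG.Mono

set_option autoImplicit false

/-!
# The monoid of words
-/

namespace Pool.Agent.TH34.SG

open Pool.Agent.TH34

/-- the data of the free ring -/
noncomputable def XX : BData ℚ EE :=
  @XB EE inferInstance HahnSeries.instAlgebra (em '' (Cs : Set Gam)) em_indep.id_image

theorem XX_delta (l : XX.Λ) (u : ℚ) : XX.δ l u = 0 := rfl

theorem zero_mem_Cs : (0 : Gam) ∈ Cs := by decide

/-- index of an allowed monomial in the basis -/
noncomputable def ix (p : Gam) : XX.β :=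
  open Classical in
  if h : p ∈ Cs then
    ⟨em p, (em_indep.id_image).subset_extend (Set.subset_univ _) ⟨p, h, rfl⟩⟩
  else ⟨em 0, (em_indep.id_image).subset_extend (Set.subset_univ _) ⟨0, zero_mem_Cs, rfl⟩⟩

theorem b_ix {p : Gam} (h : p ∈ Cs) : XX.b (ix p) = em p := by
  have h1 : ix p = (show XX.β from
      ⟨em p, (em_indep.id_image).subset_extend (Set.subset_univ _) ⟨p, h, rfl⟩⟩) := dif_pos h
  rw [h1]
  rfl

theorem ix_inj {p q : Gam} (hp : p ∈ Cs) (hq : q ∈ Cs) (h : ix p = ix q) : p = q := by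
  have h1 := congrArg XX.b h
  rw [b_ix hp, b_ix hq] at h1
  exact em_inj hp hq h1

/-- words -/
abbrev Wo : Type := List (Bool × Gam)

/-- words as lists of basis letters -/
noncomputable def mw (w : Wo) : List (XX.Λ × XX.β) :=
  w.map (fun x => ((show XX.Λ from x.1), ix x.2))

theorem mw_append (w v : Wo) : mw (w ++ v) = mw w ++ mw v := List.map_append ..

theorem mw_cons (x : Bool × Gam) (v : Wo) :
    mw (x :: v) = ((show XX.Λ from x.1), ix x.2) :: mw v := rfl

theorem mw_inj {w v : Wo} (hw : ∀ x ∈ w, x.2 ∈ Cs) (hv : ∀ x ∈ v, x.2 ∈ Cs) (h : mw w = mw v) :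
    w = v := by
  induction w generalizing v with
  | nil =>
    cases v with
    | nil => rfl
    | cons y v => simp [mw] at h
  | cons x w ih =>
    cases v with
    | nil => simp [mw] at h
    | cons y v =>
      obtain ⟨h0, h3⟩ := List.cons.inj h
      obtain ⟨h1, h2⟩ := Prod.mk.inj h0
      rw [ih (fun z hz => hw z (List.mem_cons_of_mem _ hz))
        (fun z hz => hv z (List.mem_cons_of_mem _ hz)) h3]
      congr 1
      exact Prod.ext h1 (ix_inj (hw x List.mem_cons_self) (hv y List.mem_cons_self) h2)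

/-- the monomial of a word -/
noncomputable def M (g : Gam) (w : Wo) : FR XX := sg XX (mw w) (em g)

theorem M_nil_mul (g g' : Gam) (v : Wo) : M g [] * M g' v = M (g + g') v := by
  unfold M
  rw [show mw [] = [] from rfl, sg_mul, W_nil, smul_sg, em_add]

theorem M_concat_mul (g g' : Gam) (w v : Wo) (l : Bool) (p : Gam) (hp : p ∈ Cs)
    (hq : p + g' ∈ Cs) : M g (w ++ [(l, p)]) * M g' v = M g (w ++ (l, p + g') :: v) := by
  unfold M
  rw [mw_append, mw_append, mw_cons, mw_cons, show mw [] = [] from rfl]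
  apply sg_mul_sg XX_delta
  rw [b_ix hp, b_ix hq, em_add]

theorem M_inj {g g' : Gam} {w v : Wo} (hg : g ∈ Cs) (hg' : g' ∈ Cs) (hw : ∀ x ∈ w, x.2 ∈ Cs)
    (hv : ∀ x ∈ v, x.2 ∈ Cs) (h : M g w = M g' v) : g = g' ∧ w = v := by
  have h1 : mw w = mw v := by
    by_contra hne
    have h2 := congrArg (fun f => cf XX f (mw w)) h
    simp only [M, cf_sg_same] at h2
    rw [cf_sg_ne (Ne.symm hne)] at h2
    exact em_ne_zero _ h2
  refine ⟨?_, mw_inj hw hv h1⟩
  have h2 := congrArg (fun f => cf XX f (mw w)) h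
  simp only [M, cf_sg_same] at h2
  rw [h1, cf_sg_same] at h2
  exact em_inj hg hg' h2

/-- contents allowed in the last slot of a word -/
def Ls : Finset Gam := {(0, 0), (1, 0), (2, 0), (0, 1), (4, 1)}

/-- contents allowed in the first slot of a word -/
def Rs : Finset Gam := {(0, 0), (1, 0), (2, 0), (0, -1), (4, -1)}

theorem add_mem_Cs : ∀ p ∈ Ls, ∀ q ∈ Rs, p + q ∈ Cs := by decide
theorem Ls_sub : ∀ p ∈ Ls, p ∈ Cs := by decide
theorem Rs_sub : ∀ p ∈ Rs, p ∈ Cs := by decide

/-- first slot before the letter `l` -/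
def Sset (l : Bool) : Finset Gam := if l then {0} else Rs

/-- last slot after the letter `l` -/
def Eset (l : Bool) : Finset Gam := if l then Ls else {0}

theorem Sset_sub (l : Bool) : ∀ p ∈ Sset l, p ∈ Rs := by cases l <;> decide
theorem Eset_sub (l : Bool) : ∀ p ∈ Eset l, p ∈ Ls := by cases l <;> decide

/-- valid words -/
structure Valid (g : Gam) (w : Wo) : Prop where
  nil : w = [] → g = 0
  first : ∀ l p t, w = (l, p) :: t → g ∈ Sset l
  last : ∀ t l p, w = t ++ [(l, p)] → p ∈ Eset l
  slots : ∀ x ∈ w, x.2 ∈ Cs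

theorem Valid.mem_Rs {g : Gam} {w : Wo} (h : Valid g w) : g ∈ Rs := by
  cases w with
  | nil =>
    rw [h.nil rfl]
    decide
  | cons x t => exact Sset_sub _ _ (h.first x.1 x.2 t rfl)

theorem Valid.mem_Cs {g : Gam} {w : Wo} (h : Valid g w) : g ∈ Cs := Rs_sub _ h.mem_Rs

theorem valid_one : Valid 0 [] where
  nil := fun _ => rfl
  first := by simp
  last := by simp
  slots := by simp

theorem valid_mul {g g' : Gam} {t v : Wo} {l : Bool} {p : Gam} (h : Valid g (t ++ [(l, p)]))
    (h' : Valid g' v) : Valid g (t ++ (l, p + g') :: v) where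
  nil := by simp
  first := by
    intro l1 p1 t1 he
    cases t with
    | nil =>
      rw [List.nil_append, List.cons_eq_cons, Prod.mk.injEq] at he
      rw [← he.1.1]
      exact h.first l p [] rfl
    | cons x t =>
      rw [List.cons_append, List.cons_eq_cons] at he
      apply h.first l1 p1 (t ++ [(l, p)])
      rw [List.cons_append, he.1]
  last := by
    intro t1 l1 p1 he
    rcases List.eq_nil_or_concat v with hv | ⟨v', y, hv⟩
    · subst hv
      have h0 := h'.nil rfl
      subst h0
      have he' := List.append_inj_right' he rfl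
      simp only [add_zero, List.cons.injEq, Prod.mk.injEq, and_true] at he'
      rw [← he'.1, ← he'.2]
      exact h.last t l p rfl
    · rw [List.concat_eq_append] at hv
      subst hv
      have he1 : (t ++ (l, p + g') :: v') ++ [y] = t1 ++ [(l1, p1)] := by
        rw [← he]
        simp
      have he' := List.append_inj_right' he1 rfl
      simp only [List.cons.injEq, and_true] at he'
      apply h'.last v' l1 p1
      rw [he']
  slots := by
    intro x hx
    rw [List.mem_append, List.mem_cons] at hx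
    rcases hx with hx | hx | hx
    · exact h.slots x (List.mem_append_left _ hx)
    · subst hx
      exact add_mem_Cs _ (Eset_sub _ _ (h.last t l p rfl)) _ h'.mem_Rs
    · exact h'.slots x hx

/-- the monoid of words, as a submonoid of the free ring -/
noncomputable def SM : Submonoid (FR XX) where
  carrier := {f | ∃ g w, Valid g w ∧ f = M g w}
  one_mem' := ⟨0, [], valid_one, by
    unfold M
    rw [em_zero]
    rfl⟩
  mul_mem' := by
    rintro _ _ ⟨g, w, hv, rfl⟩ ⟨g', v, hv', rfl⟩
    rcases List.eq_nil_or_concat w with hw | ⟨t, y, hw⟩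
    · subst hw
      rw [hv.nil rfl, M_nil_mul, zero_add]
      exact ⟨g', v, hv', rfl⟩
    · rw [List.concat_eq_append] at hw
      subst hw
      obtain ⟨l, p⟩ := y
      refine ⟨g, t ++ (l, p + g') :: v, valid_mul hv hv', ?_⟩
      apply M_concat_mul
      · exact Ls_sub _ (Eset_sub _ _ (hv.last t l p rfl))
      · exact add_mem_Cs _ (Eset_sub _ _ (hv.last t l p rfl)) _ hv'.mem_Rs

/-- the first slot -/
noncomputable def g0 (s : SM) : Gam := s.2.choose

/-- the word -/
noncomputable def w0 (s : SM) : Wo := s.2.choose_spec.choose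

theorem valid_rep (s : SM) : Valid (g0 s) (w0 s) := s.2.choose_spec.choose_spec.1

theorem eq_rep (s : SM) : (s : FR XX) = M (g0 s) (w0 s) := s.2.choose_spec.choose_spec.2

theorem rep_unique {s : SM} {g : Gam} {w : Wo} (h : Valid g w) (hs : (s : FR XX) = M g w) :
    g0 s = g ∧ w0 s = w := by
  rw [eq_rep] at hs
  exact M_inj (valid_rep s).mem_Cs h.mem_Cs (valid_rep s).slots h.slots hs

theorem rep_ext {s t : SM} (h1 : g0 s = g0 t) (h2 : w0 s = w0 t) : s = t := by
  apply Subtype.ext
  rw [eq_rep s, eq_rep t, h1, h2]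

theorem rep_mul_nil {u v : SM} (h : w0 u = []) : g0 (u * v) = g0 v ∧ w0 (u * v) = w0 v := by
  apply rep_unique (valid_rep v)
  rw [Submonoid.coe_mul, eq_rep u, eq_rep v, h, M_nil_mul, (valid_rep u).nil h, zero_add]

theorem rep_mul_concat {u v : SM} {t : Wo} {l : Bool} {p : Gam} (h : w0 u = t ++ [(l, p)]) :
    g0 (u * v) = g0 u ∧ w0 (u * v) = t ++ (l, p + g0 v) :: w0 v := by
  have hu := valid_rep u
  rw [h] at hu
  apply rep_unique (valid_mul hu (valid_rep v))
  rw [Submonoid.coe_mul, eq_rep u, eq_rep v, h]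
  apply M_concat_mul
  · exact Ls_sub _ (Eset_sub _ _ (hu.last t l p rfl))
  · exact add_mem_Cs _ (Eset_sub _ _ (hu.last t l p rfl)) _ (valid_rep v).mem_Rs

theorem len_mul (u v : SM) : (w0 (u * v)).length = (w0 u).length + (w0 v).length := by
  rcases List.eq_nil_or_concat (w0 u) with hw | ⟨t, ⟨l, p⟩, hw⟩
  · rw [(rep_mul_nil hw).2, hw]
    simp
  · rw [List.concat_eq_append] at hw
    rw [(rep_mul_concat hw).2, hw]
    simp
    omega

/-- everything but the last slot -/
noncomputable def pre (u : SM) : Gam × Wo × Option Bool :=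
  (g0 u, (w0 u).dropLast, (w0 u).getLast?.map Prod.fst)

/-- the last slot -/
noncomputable def en (u : SM) : Gam := ((w0 u).getLast?.map Prod.snd).getD 0

theorem pre_nil {u : SM} (h : w0 u = []) : pre u = (g0 u, [], none) := by
  simp [pre, h]

theorem en_nil {u : SM} (h : w0 u = []) : en u = 0 := by
  simp [en, h]

theorem pre_concat {u : SM} {t : Wo} {l : Bool} {p : Gam} (h : w0 u = t ++ [(l, p)]) :
    pre u = (g0 u, t, some l) := by
  simp [pre, h]

theorem en_concat {u : SM} {t : Wo} {l : Bool} {p : Gam} (h : w0 u = t ++ [(l, p)]) :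
    en u = p := by
  simp [en, h]

theorem en_mem (u : SM) : en u ∈ Ls := by
  rcases List.eq_nil_or_concat (w0 u) with hw | ⟨t, ⟨l, p⟩, hw⟩
  · rw [en_nil hw]
    decide
  · rw [List.concat_eq_append] at hw
    rw [en_concat hw]
    exact Eset_sub _ _ ((valid_rep u).last t l p hw)

theorem pre_len {u v : SM} (h : pre u = pre v) : (w0 u).length = (w0 v).length := by
  rcases List.eq_nil_or_concat (w0 u) with hw | ⟨t, ⟨l, p⟩, hw⟩ <;>
  rcases List.eq_nil_or_concat (w0 v) with hw' | ⟨t', ⟨l', p'⟩, hw'⟩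
  · rw [hw, hw']
  · rw [List.concat_eq_append] at hw'
    rw [pre_nil hw, pre_concat hw'] at h
    simp at h
  · rw [List.concat_eq_append] at hw
    rw [pre_concat hw, pre_nil hw'] at h
    simp at h
  · rw [List.concat_eq_append] at hw hw'
    rw [pre_concat hw, pre_concat hw'] at h
    simp only [Prod.mk.injEq] at h
    rw [hw, hw', h.2.1]
    simp

theorem pre_en_ext {u v : SM} (h : pre u = pre v) (h' : en u = en v) : u = v := by
  rcases List.eq_nil_or_concat (w0 u) with hw | ⟨t, ⟨l, p⟩, hw⟩ <;>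
  rcases List.eq_nil_or_concat (w0 v) with hw' | ⟨t', ⟨l', p'⟩, hw'⟩
  · rw [pre_nil hw, pre_nil hw'] at h
    simp only [Prod.mk.injEq] at h
    exact rep_ext h.1 (by rw [hw, hw'])
  · rw [List.concat_eq_append] at hw'
    rw [pre_nil hw, pre_concat hw'] at h
    simp at h
  · rw [List.concat_eq_append] at hw
    rw [pre_concat hw, pre_nil hw'] at h
    simp at h
  · rw [List.concat_eq_append] at hw hw'
    rw [pre_concat hw, pre_concat hw'] at h
    rw [en_concat hw, en_concat hw'] at h'
    simp only [Prod.mk.injEq, Option.some.injEq] at h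
    refine rep_ext h.1 ?_
    rw [hw, hw', h.2.1, h.2.2, h']

theorem junction {u v u' v' : SM} (h : u * v = u' * v')
    (hl : (w0 u).length = (w0 u').length) :
    pre u = pre u' ∧ w0 v = w0 v' ∧ en u + g0 v = en u' + g0 v' := by
  rcases List.eq_nil_or_concat (w0 u) with hw | ⟨t, ⟨l, p⟩, hw⟩ <;>
  rcases List.eq_nil_or_concat (w0 u') with hw' | ⟨t', ⟨l', p'⟩, hw'⟩
  · have h1 := rep_mul_nil (v := v) hw
    have h2 := rep_mul_nil (v := v') hw'
    rw [h] at h1
    refine ⟨?_, by rw [← h1.2, h2.2], ?_⟩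
    · rw [pre_nil hw, pre_nil hw', (valid_rep u).nil hw, (valid_rep u').nil hw']
    · rw [en_nil hw, en_nil hw', ← h1.1, h2.1]
  · rw [List.concat_eq_append] at hw'
    rw [hw, hw'] at hl
    simp at hl
  · rw [List.concat_eq_append] at hw
    rw [hw, hw'] at hl
    simp at hl
  · rw [List.concat_eq_append] at hw hw'
    have h1 := rep_mul_concat (v := v) hw
    have h2 := rep_mul_concat (v := v') hw'
    rw [h] at h1
    rw [hw, hw'] at hl
    simp only [List.length_append, List.length_cons, List.length_nil] at hl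
    have h3 := h1.2.symm.trans h2.2
    obtain ⟨h4, h5⟩ := List.append_inj h3 (by omega)
    rw [List.cons_eq_cons, Prod.mk.injEq] at h5
    refine ⟨?_, h5.2, ?_⟩
    · rw [pre_concat hw, pre_concat hw', ← h1.1, h2.1, h4, h5.1.1]
    · rw [en_concat hw, en_concat hw']
      exact h5.1.2

/-- priorities on the last slots -/
def phi (p : Gam) : ℕ := p.1.val + (if p.2 = 0 then 0 else 10)

/-- priorities on the first slots -/
def psi (p : Gam) : ℕ := p.1.val + (if p.2 = 0 then 10 else 0)

theorem local_unique : ∀ p ∈ Ls, ∀ q ∈ Rs, ∀ p' ∈ Ls, ∀ q' ∈ Rs, p' + q' = p + q →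
    phi p ≤ phi p' → psi q ≤ psi q' → p' = p ∧ q' = q := by decide

instance : UniqueProds SM where
  uniqueMul_of_nonempty := by
    classical
    intro A B hA hB
    obtain ⟨a1, ha1, hamax⟩ := Finset.exists_max_image A (fun a => (w0 a).length) hA
    obtain ⟨b1, hb1, hbmax⟩ := Finset.exists_max_image B (fun b => (w0 b).length) hB
    obtain ⟨a0, ha0, hamin⟩ := Finset.exists_min_image (A.filter (fun a => pre a = pre a1))
      (fun a => phi (en a)) ⟨a1, by simp [ha1]⟩
    obtain ⟨b0, hb0, hbmin⟩ := Finset.exists_min_image (B.filter (fun b => w0 b = w0 b1))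
      (fun b => psi (g0 b)) ⟨b1, by simp [hb1]⟩
    rw [Finset.mem_filter] at ha0 hb0
    refine ⟨a0, ha0.1, b0, hb0.1, ?_⟩
    intro a b ha hb hab
    have hl1 := hamax a ha
    have hl2 := hbmax b hb
    have hl3 := pre_len ha0.2
    have hl4 : (w0 b0).length = (w0 b1).length := by rw [hb0.2]
    have hl5 := len_mul a b
    have hl6 := len_mul a0 b0
    rw [hab] at hl5
    obtain ⟨h1, h2, h3⟩ := junction hab (by omega)
    have h4 := hamin a (by rw [Finset.mem_filter]; exact ⟨ha, h1.trans ha0.2⟩)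
    have h5 := hbmin b (by rw [Finset.mem_filter]; exact ⟨hb, h2.trans hb0.2⟩)
    obtain ⟨h6, h7⟩ := local_unique _ (en_mem a0) _ (valid_rep b0).mem_Rs _ (en_mem a) _
      (valid_rep b).mem_Rs h3 h4 h5
    exact ⟨pre_en_ext h1 h6, rep_ext h7 h2⟩

end Pool.Agent.TH34.SG
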