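import Pool.Agent.TH34.TFin
import Pool.Agent.TH34.RatEl

set_option autoImplicit false

/-!
# Basis monomials in the free extension ring, and its embedding in a division ring
-/

namespace Pool.Agent.TH34.SG

open Pool.Agent.TH34 Matrix

section

variable {U E : Type} [DivisionRing U] [DivisionRing E] {X : BData U E}

/-- the free extension ring embeds in a division ring -/
theorem exists_embed (X : BData U E) :
    ∃ (D : Type) (_ : DivisionRing D) (j : FR X →+* D), Function.Injective j := by
  obtain ⟨D, iD, j, hinv, -, -⟩ := exists_loc (FR X) (FR_TProp (X := X))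
  refine ⟨D, iD, j, ?_⟩
  rw [injective_iff_map_eq_zero]
  intro a ha
  by_contra h0
  have hfull : ColFull (fun _ _ => a : Matrix (Fin 1) (Fin 1) (FR X)) := by
    intro κ _ P Q hPQ
    by_contra hlt
    have hc : Fintype.card κ = 0 := by
      have := Fintype.card_fin 1
      omega
    have : IsEmpty κ := Fintype.card_eq_zero_iff.mp hc
    apply h0
    have := congrFun (congrFun hPQ 0) 0
    rw [this, Matrix.mul_apply]
    simp
  obtain ⟨N, hN, -⟩ := hinv 1 _ hfull
  have h1 := congrFun (congrFun hN 0) 0
  rw [Matrix.mul_apply] at h1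
  simp only [Finset.univ_unique, Fin.default_eq_zero, Finset.sum_singleton, Matrix.one_apply_eq]
    at h1
  change j a * N 0 0 = 1 at h1
  rw [ha, zero_mul] at h1
  exact zero_ne_one h1

theorem W_append (w v : List (X.Λ × X.β)) (g : FR X) : W (w ++ v) g = W w (W v g) := by
  induction w with
  | nil => rfl
  | cons x w ih =>
    rw [List.cons_append, W_cons, ih, W_cons]

variable (hδ : ∀ l u, X.δ l u = 0)

include hδ

theorem dt_eq_zero (l : X.Λ) (e : E) : dt l e = 0 := by
  rw [dt_apply, Finsupp.sum]
  apply Finset.sum_eq_zero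
  intro i _
  rw [hδ, zero_mul]

theorem Z_sg_b (l : X.Λ) (w : List (X.Λ × X.β)) (i : X.β) :
    Z l (sg X w (X.b i)) = sg X ((l, i) :: w) 1 := by
  rw [Z_sg, X.rp_b, dt_eq_zero hδ, sg_zero, add_zero,
    Finsupp.sum_single_index (by rw [map_zero, sg_zero]), map_one]

theorem W_sg_one (w v : List (X.Λ × X.β)) : W w (sg X v 1) = sg X (w ++ v) 1 := by
  induction w with
  | nil => rfl
  | cons x w ih =>
    rw [W_cons, ih, smul_sg, mul_one, Z_sg_b hδ]
    rfl

/-- product of two monomials -/
theorem sg_mul_sg (w v : List (X.Λ × X.β)) (l : X.Λ) (i k : X.β) (e e' : E)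
    (h : X.b i * e' = X.b k) :
    sg X (w ++ [(l, i)]) e * sg X v e' = sg X (w ++ (l, k) :: v) e := by
  rw [sg_mul, W_append, W_cons, W_nil, smul_sg, h, Z_sg_b hδ, W_sg_one hδ, smul_sg, mul_one]

end

/-- The data for the free `E`-ring over `ℚ` on two generators, with a basis containing `C`. -/
noncomputable def XB (E : Type) [DivisionRing E] [Algebra ℚ E] (C : Set E)
    (hC : LinearIndepOn ℚ id C) : BData ℚ E where
  ι := algebraMap ℚ E
  Λ := Bool
  δ := fun _ => 0
  leib := by
    intro l u v
    simp
  β := hC.extend (Set.subset_univ C)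
  b := Subtype.val
  rp := (Module.Basis.extend hC).repr.toLinearMap.toAddMonoidHom
  rp_smul := by
    intro u e
    rw [← Algebra.smul_def]
    simp
  rp_b := by
    intro i
    have h := (Module.Basis.extend hC).repr_self i
    rw [Module.Basis.extend_apply_self] at h
    exact h
  sum_rp := by
    intro e
    have h := (Module.Basis.extend hC).linearCombination_repr e
    rw [Finsupp.linearCombination_apply] at h
    simp only [Module.Basis.extend_apply_self] at h
    simp only [← Algebra.smul_def]
    exact h

end Pool.Agent.TH34.SG
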